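import Pool.Agent.Helper33.TB.Goals

set_option autoImplicit false

open Finset Filter Topology

namespace Pool.Agent.Helper55.TB

open Pool.Agent.Helper90.Twin (Ps Gz)
open Pool.Agent.Helper33.TB

theorem av_add (Q : ℕ) (f g : ℤ → ℝ) :
    Av Q (fun t => f t + g t) = Av Q f + Av Q g := by
  unfold Av
  rw [Finset.sum_add_distrib, add_div]

theorem av_mul (Q : ℕ) (c : ℝ) (f : ℤ → ℝ) : Av Q (fun t => c * f t) = c * Av Q f := by
  unfold Av
  rw [← Finset.mul_sum, mul_div_assoc]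

theorem av_sum (Q : ℕ) (s : Finset ℕ) (f : ℕ → ℤ → ℝ) :
    Av Q (fun t => ∑ h ∈ s, f h t) = ∑ h ∈ s, Av Q (f h) := by
  unfold Av
  rw [Finset.sum_comm, Finset.sum_div]

theorem av_le (Q : ℕ) (f g : ℤ → ℝ) (h : ∀ t, f t ≤ g t) : Av Q f ≤ Av Q g := by
  unfold Av
  exact div_le_div_of_nonneg_right (Finset.sum_le_sum fun _ _ => h _) (Nat.cast_nonneg _)

theorem av_abs (Q : ℕ) (f g : ℤ → ℝ) (h : ∀ t, |f t| ≤ g t) : |Av Q f| ≤ Av Q g := by
  rw [abs_le]
  constructor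
  · have h1 := av_le Q (fun t => -1 * g t) f (fun t => by linarith [(abs_le.mp (h t)).1])
    rw [av_mul] at h1
    linarith
  · exact av_le Q f g fun t => (abs_le.mp (h t)).2

theorem am (hX : StmtXSB) (hE : StmtEXP) (hS : StmtST) (hN : StmtNX) : StmtAM := by
  intro L z H hH hL hz F hFp hF hFb
  set τ : ℝ := Gz z / Gz L with hτ
  have hGz := Pool.Agent.Helper90.Twin.Gz_pos z
  have hGL := Pool.Agent.Helper90.Twin.Gz_pos L
  have hτ0 : 0 < τ := div_pos hGz hGL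
  have hτ1 : τ ≤ 1 := by
    rw [hτ, div_le_one hGL]
    exact Pool.Agent.Helper90.Twin.Gz_anti hz
  have hps : ∀ y : ℕ, ∀ p ∈ Ps y, p.Prime ∧ 5 ≤ p := by
    intro y p hp
    have h := Pool.Agent.Helper90.Twin.mem_Ps.1 hp
    exact ⟨h.2.2, h.1⟩
  set X := XS (Ps z) with hXd
  set Y := XS (Ps L) with hYd
  set Qz := QS (Ps z)
  set QL := QS (Ps L)
  have hXzo : ∀ t, X t = 0 ∨ X t = 1 := hX.zo _
  have hYzo : ∀ t, Y t = 0 ∨ Y t = 1 := hX.zo _
  have hXn : ∀ t, 0 ≤ X t := fun t => by rcases hXzo t with h | h <;> rw [h] <;> norm_num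
  have hYn : ∀ t, 0 ≤ Y t := fun t => by rcases hYzo t with h | h <;> rw [h] <;> norm_num
  have hPc : ∀ t, 0 ≤ Pc Y τ H t := by
    intro t
    refine Finset.prod_nonneg fun i _ => ?_
    rcases hYzo (t + (i : ℤ)) with h | h <;> rw [h]
    · norm_num
    · linarith
  obtain ⟨_, _, hnx⟩ := hN Qz X (hX.ne _ (hps z))
  obtain ⟨hs1, hs2⟩ := hS L z H hH hL hz
  -- (a)
  have ha : |Av Qz (fun t => X t * nx X t)
      - ∑ h ∈ Icc 1 H, (-1) ^ h * Av Qz (fun t => X t * (Pw X 1 h t * X (t + (h : ℤ))))|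
      ≤ Av Qz (fun t => X t * Pc X 1 H t) := by
    have e1 : ∑ h ∈ Icc 1 H, (-1) ^ h * Av Qz (fun t => X t * (Pw X 1 h t * X (t + (h : ℤ))))
        = Av Qz (fun t => X t * ∑ h ∈ Icc 1 H, (-1) ^ h * (Pw X 1 h t * X (t + (h : ℤ)))) := by
      have e2 : (fun t => X t * ∑ h ∈ Icc 1 H, (-1) ^ h * (Pw X 1 h t * X (t + (h : ℤ))))
          = fun t => ∑ h ∈ Icc 1 H, (-1) ^ h * (X t * (Pw X 1 h t * X (t + (h : ℤ)))) := by
        funext t
        rw [Finset.mul_sum]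
        exact Finset.sum_congr rfl fun h _ => by ring
      rw [e2, av_sum]
      exact Finset.sum_congr rfl fun h _ => (av_mul _ _ _).symm
    have e3 : Av Qz (fun t => X t * nx X t)
        - Av Qz (fun t => X t * ∑ h ∈ Icc 1 H, (-1) ^ h * (Pw X 1 h t * X (t + (h : ℤ))))
        = Av Qz (fun t => X t * (nx X t - ∑ h ∈ Icc 1 H, (-1) ^ h *
          (Pw X 1 h t * X (t + (h : ℤ))))) := by
      have e4 : (fun t => X t * (nx X t - ∑ h ∈ Icc 1 H, (-1) ^ h *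
          (Pw X 1 h t * X (t + (h : ℤ))))) = fun t => X t * nx X t + (-1) *
          (X t * ∑ h ∈ Icc 1 H, (-1) ^ h * (Pw X 1 h t * X (t + (h : ℤ)))) := by
        funext t
        ring
      rw [e4, av_add, av_mul]
      ring
    rw [e1, e3]
    refine av_abs _ _ _ fun t => ?_
    rw [abs_mul, abs_of_nonneg (hXn t)]
    exact mul_le_mul_of_nonneg_left (hnx t H) (hXn t)
  -- (c)
  have hc : |τ ^ 2 * Av QL (fun t => Y t * F t)
      - ∑ h ∈ Icc 1 H, (-1) ^ h * (τ ^ 2 * Av QL (fun t => Y t *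
        (Pw Y τ h t * Y (t + (h : ℤ)))))| ≤ τ * Av QL (fun t => Y t * Pc Y τ H t) := by
    have e1 : Av QL (fun t => Y t * F t) = ∑ h ∈ Icc 1 H, (-1) ^ h * Av QL (fun t => Y t *
        (Pw Y τ h t * Y (t + (h : ℤ)))) + Av QL (fun t => Y t * ((-1) ^ H * Pc Y τ H t *
        F (t + (H : ℤ)))) := by
      have e2 : (fun t => Y t * F t) = fun t => (∑ h ∈ Icc 1 H, (-1) ^ h * (Y t *
          (Pw Y τ h t * Y (t + (h : ℤ))))) + Y t * ((-1) ^ H * Pc Y τ H t *
          F (t + (H : ℤ))) := by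
        funext t
        have h1 := hE.1 Y τ F hF t H
        nth_rewrite 1 [h1]
        rw [mul_add, Finset.mul_sum]
        congr 1
        exact Finset.sum_congr rfl fun h _ => by ring
      rw [e2, av_add, av_sum]
      congr 1
      exact Finset.sum_congr rfl fun h _ => av_mul _ _ _
    have e3 : τ ^ 2 * Av QL (fun t => Y t * F t)
      - ∑ h ∈ Icc 1 H, (-1) ^ h * (τ ^ 2 * Av QL (fun t => Y t *
        (Pw Y τ h t * Y (t + (h : ℤ))))) = τ ^ 2 * Av QL (fun t => Y t * ((-1) ^ H * Pc Y τ H t *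
        F (t + (H : ℤ)))) := by
      rw [e1, mul_add, Finset.mul_sum]
      have e4 : ∑ h ∈ Icc 1 H, τ ^ 2 * ((-1) ^ h * Av QL (fun t => Y t *
          (Pw Y τ h t * Y (t + (h : ℤ))))) = ∑ h ∈ Icc 1 H, (-1) ^ h * (τ ^ 2 *
          Av QL (fun t => Y t * (Pw Y τ h t * Y (t + (h : ℤ))))) :=
        Finset.sum_congr rfl fun h _ => by ring
      rw [e4]
      ring
    rw [e3, abs_mul, abs_of_nonneg (sq_nonneg τ)]
    have e5 : |Av QL (fun t => Y t * ((-1) ^ H * Pc Y τ H t * F (t + (H : ℤ))))| ≤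
        Av QL (fun t => 1 / τ * (Y t * Pc Y τ H t)) := by
      refine av_abs _ _ _ fun t => ?_
      rw [abs_mul, abs_mul, abs_mul, abs_pow, abs_neg, abs_one, one_pow, one_mul,
        abs_of_nonneg (hYn t), abs_of_nonneg (hPc t)]
      have h2 := mul_le_mul_of_nonneg_left (hFb (t + (H : ℤ)))
        (mul_nonneg (hYn t) (hPc t))
      linarith
    rw [av_mul] at e5
    calc τ ^ 2 * |Av QL (fun t => Y t * ((-1) ^ H * Pc Y τ H t * F (t + (H : ℤ))))|
        ≤ τ ^ 2 * (1 / τ * Av QL (fun t => Y t * Pc Y τ H t)) :=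
          mul_le_mul_of_nonneg_left e5 (sq_nonneg τ)
      _ = τ * Av QL (fun t => Y t * Pc Y τ H t) := by
          field_simp
  -- (b)
  have hb : |∑ h ∈ Icc 1 H, (-1) ^ h * Av Qz (fun t => X t * (Pw X 1 h t * X (t + (h : ℤ))))
      - ∑ h ∈ Icc 1 H, (-1) ^ h * (τ ^ 2 * Av QL (fun t => Y t *
        (Pw Y τ h t * Y (t + (h : ℤ)))))| ≤ H * (8 * ((H : ℝ) + 1) ^ 2 / L) := by
    rw [← Finset.sum_sub_distrib]
    refine (Finset.abs_sum_le_sum_abs _ _).trans ?_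
    calc _ ≤ ∑ h ∈ Icc 1 H, (8 * ((H : ℝ) + 1) ^ 2 / L) := by
          refine Finset.sum_le_sum fun h hh => ?_
          rw [← mul_sub, abs_mul, abs_pow, abs_neg, abs_one, one_pow, one_mul]
          exact hs1 h hh
      _ = _ := by
          rw [Finset.sum_const, Nat.card_Icc, Nat.add_sub_cancel, nsmul_eq_mul]
  -- (d)
  have hd : Av Qz (fun t => X t * Pc X 1 H t) ≤ τ * Av QL (fun t => Y t * Pc Y τ H t)
      + 8 * ((H : ℝ) + 1) ^ 2 / L := by
    have := (abs_le.mp hs2).2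
    linarith
  have hL' : (0 : ℝ) < L := by exact_mod_cast hL
  have e6 : 8 * ((H : ℝ) + 1) ^ 3 / L = H * (8 * ((H : ℝ) + 1) ^ 2 / L)
      + 8 * ((H : ℝ) + 1) ^ 2 / L := by
    field_simp
  rw [e6]
  rw [abs_le] at ha hb hc ⊢
  constructor <;> linarith [ha.1, ha.2, hb.1, hb.2, hc.1, hc.2]

end Pool.Agent.Helper55.TB
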